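import Pool.Agent.Lib.MP_dab48e_gt.Ind

/-! The module is isomorphic to its double; self-similarity over `G × ℤ`; infinite generation. -/

set_option autoImplicit false

noncomputable section

namespace Pool.Agent.Lib.MP_dab48e_gt

open Function MonoidAlgebra

variable {Γ : Type} [Group Γ] {a b s t : Γ}

/-- The induced module. -/
abbrev Mo (a b : Γ) : Type := ZG Γ ⧸ I₃ a b

/-- Its generator. -/
abbrev vv (a b : Γ) : Mo a b := (I₃ a b).mkQ 1

theorem a_v : o a • vv a b = vv a b := by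
  simpa using rel_of_mem (I := I₃ a b) (Submodule.mem_sup_left (Submodule.mem_sup_left mem₁))

theorem b_v : o b • vv a b = -vv a b := by
  simpa using rel_of_mem (I := I₃ a b) (Submodule.mem_sup_left mem₂)

theorem three (y : Mo a b) : (3 : ℤ) • y = 0 := by
  obtain ⟨r, rfl⟩ := (I₃ a b).mkQ_surjective y
  rw [← map_zsmul, zsmul_eq_mul, (Int.cast_commute _ r).eq]
  exact (Submodule.Quotient.mk_eq_zero _).2 (Submodule.smul_mem _ r
    (Submodule.mem_sup_right (Submodule.mem_span_singleton_self _)))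

theorem Two.b_smul (h : Two a b) (y : Mo a b) : o b • y = -y := by
  obtain ⟨r, rfl⟩ := (I₃ a b).mkQ_surjective y
  have : (I₃ a b).mkQ r = r • vv a b := by rw [← map_smul, smul_eq_mul, mul_one]
  rw [this, smul_smul, ← h.o_cen, ← smul_smul, b_v, smul_neg]

section Lift

variable {N : Type} [AddCommGroup N] [Module (ZG Γ) N]

theorem le_ker {I : Submodule (ZG Γ) (ZG Γ)} {z : ZG Γ} {y : N}
    (h : I ≤ LinearMap.ker (LinearMap.toSpanSingleton (ZG Γ) N y)) (hz : z • y = 0) :
    I ⊔ ZG Γ ∙ z ≤ LinearMap.ker (LinearMap.toSpanSingleton (ZG Γ) N y) :=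
  sup_le h ((Submodule.span_singleton_le_iff_mem _ _).2 hz)

theorem le_ker₂ {ε : ℤˣ} {y : N} (ha : o a • y = y) (hb : o b • y = (ε : ℤ) • y) :
    I₂ a b ε ≤ LinearMap.ker (LinearMap.toSpanSingleton (ZG Γ) N y) :=
  le_ker (le_ker bot_le (by simp [sub_smul, ha])) (by rw [sub_smul, hb, Int.cast_smul_eq_zsmul,
    sub_self])

theorem lift₃ {y : N} (ha : o a • y = y) (hb : o b • y = -y) (h3 : (3 : ℤ) • y = 0) :
    ∃ f : Mo a b →ₗ[ZG Γ] N, f (vv a b) = y :=
  ⟨(I₃ a b).liftQ _ (le_ker (le_ker₂ ha (by simpa using hb))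
    (by rw [Int.cast_smul_eq_zsmul, h3])), one_smul _ y⟩

theorem lin_ext {I : Submodule (ZG Γ) (ZG Γ)} {f g : (ZG Γ ⧸ I) →ₗ[ZG Γ] N}
    (h : f (I.mkQ 1) = g (I.mkQ 1)) : f = g :=
  Submodule.linearMap_qext _ (LinearMap.ext_ring h)

end Lift

theorem neg_two (y : Mo a b) : -(y + y) = y := by
  rw [← sub_eq_zero, ← neg_eq_zero, ← three y]; abel

theorem Two.double (h : Two a b) (ht : a * t = t * a * a) (hs : a * s = s * a * b) :
    Nonempty (Mo a b ≃ₗ[ZG Γ] Mo a b × Mo a b) := by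
  have asv : o a • o s • vv a b = -(o s • vv a b) := by
    rw [o_smul, hs, ← o_smul, b_v, smul_neg, ← o_smul, a_v]
  have aat : o a • o a • o t⁻¹ • vv a b = o t⁻¹ • vv a b := by
    rw [o_smul, o_smul, show a * a * t⁻¹ = t⁻¹ * a by
      rw [mul_inv_eq_iff_eq_mul, mul_assoc, ht]; group, ← o_smul, a_v]
  have as : ∀ y : Mo a b, o a • o s⁻¹ • y = -(o s⁻¹ • o a • y) := fun y => by
    rw [← neg_eq_iff_eq_neg, ← h.b_smul, o_smul, o_smul, o_smul, ← h.cen a,
      show a * b * s⁻¹ = s⁻¹ * a by rw [mul_inv_eq_iff_eq_mul, mul_assoc s⁻¹, hs]; group]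
  obtain ⟨α, hα⟩ := lift₃ (a := a) (b := b) (y := o t • (vv a b, o s • vv a b))
    (by rw [o_smul, ht, ← o_smul, ← o_smul]; simp [a_v, asv, -Submodule.mkQ_apply])
    (Prod.ext (h.b_smul _) (h.b_smul _)) (Prod.ext (three _) (three _))
  obtain ⟨β, hβ⟩ := lift₃ (a := a) (b := b) (y := -(o t⁻¹ • vv a b + o a • o t⁻¹ • vv a b))
    (by rw [smul_neg, smul_add, aat, add_comm]) (h.b_smul _) (three _)
  obtain ⟨γ, hγ⟩ := lift₃ (a := a) (b := b)
    (y := -(o s⁻¹ • (o t⁻¹ • vv a b - o a • o t⁻¹ • vv a b)))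
    (by rw [smul_neg, as, smul_sub, aat, ← smul_neg, neg_sub]) (h.b_smul _) (three _)
  have c : ∀ (g : Γ) {N : Type} [AddCommGroup N] [Module (ZG Γ) N] (y : N),
      o g • o g⁻¹ • y = y ∧ o g⁻¹ • o g • y = y := fun g _ _ _ y => by simp [o_smul, o_one]
  refine ⟨.ofLinearMap α (β.coprod γ) (LinearMap.prod_ext (lin_ext ?_) (lin_ext ?_)) (lin_ext ?_)⟩
  · simp only [LinearMap.comp_apply, LinearMap.inl_apply, LinearMap.coprod_apply, map_zero,
      add_zero, hβ, map_neg, map_add, map_smul, hα, (c _ _).2, LinearMap.id_apply]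
    exact Prod.ext (by simpa [a_v, -Submodule.mkQ_apply] using neg_two _)
      (by simp [asv, -Submodule.mkQ_apply])
  · simp only [LinearMap.comp_apply, LinearMap.inr_apply, LinearMap.coprod_apply, map_zero,
      zero_add, hγ, map_neg, map_sub, map_smul, hα, (c _ _).2, LinearMap.id_apply]
    exact Prod.ext (by simp [a_v, -Submodule.mkQ_apply])
      (by simpa [asv, (c _ _).2, -Submodule.mkQ_apply] using neg_two _)
  · simp only [LinearMap.comp_apply, hα, map_smul, LinearMap.coprod_apply, hβ, hγ, smul_neg,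
      (c _ _).1, LinearMap.id_apply]
    rw [← neg_add, add_add_sub_cancel, neg_two, (c _ _).1]

theorem Two.power (h : Two a b) (ht : a * t = t * a * a) (hs : a * s = s * a * b) (k : ℕ) :
    Nonempty (Mo a b ≃ₗ[ZG Γ] (Fin (k + 1) → Mo a b)) := by
  obtain ⟨e⟩ := h.double ht hs
  induction k with
  | zero => exact ⟨(LinearEquiv.funUnique (Fin 1) _ _).symm⟩
  | succ k ih =>
    exact ⟨e.trans (((LinearEquiv.refl _ _).prodCongr ih.some).trans
      (Fin.consLinearEquiv _ fun _ : Fin (k + 2) => Mo a b))⟩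

theorem desc₃ {N : Type} [AddCommGroup N] (f : Γ → N) (h : ∀ g, f (g * a) = f g)
    (h' : ∀ g, f (g * b) = -f g) (h3 : ∀ g, (3 : ℤ) • f g = 0) :
    ∃ T : Mo a b →+ N, ∀ g, T (o g • vv a b) = f g := descend f (kill₃ h h' h3)

theorem ga (g : Γ) : o (g * a) • vv a b = o g • vv a b := by rw [← o_smul, a_v]

theorem gb (g : Γ) : o (g * b) • vv a b = -(o g • vv a b) := by rw [← o_smul, b_v, smul_neg]

theorem Two.not_fg (h : Two a b) (φ : Γ →* Multiplicative ℤ) (h1 : φ ≠ 1) (ha : φ a = 1)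
    (hb : φ b = 1) (S : Set (Mo a b)) (hS : S.Finite) :
    AddSubgroup.closure {y | ∃ γ ∈ φ.ker, ∃ x ∈ S, y = o γ • x} ≠ ⊤ := by
  classical
  have hD := fun n => desc₃ (a := a) (b := b) (fun g => if φ g = n then o g • vv a b else 0)
    (fun g => by simp only [map_mul, ha, mul_one, ga])
    (fun g => by simp only [map_mul, hb, mul_one, gb]; split_ifs <;> simp) fun g => three _
  choose D hD using hD
  have fin : ∀ y, ∀ᶠ n in Filter.cofinite, D n y = 0 := fun y => by
    obtain ⟨r, rfl⟩ := (I₃ a b).mkQ_surjective y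
    induction r using MonoidAlgebra.induction_on with
    | of g =>
      filter_upwards [Filter.eventually_cofinite_ne (φ g)] with n hn
      have := hD n g
      rw [if_neg hn.symm, ← map_smul, smul_eq_mul, mul_one] at this
      exact this
    | add x y hx hy => filter_upwards [hx, hy] with n h h' using by rw [map_add, map_add, h, h',
        add_zero]
    | smul c x hx => filter_upwards [hx] with n h using by rw [map_zsmul, map_zsmul, h, smul_zero]
  obtain ⟨g, hg⟩ := DFunLike.ne_iff.1 h1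
  have inj : Injective fun m : ℕ => φ g ^ m :=
    injective_pow_iff_not_isOfFinOrder.2 (not_isOfFinOrder_of_isMulTorsionFree hg)
  obtain ⟨m, hm⟩ := (inj.tendsto_cofinite.eventually ((hS.eventually_all (l := Filter.cofinite)
    (p := fun x n => D n x = 0)).2 fun x _ => fin x)).exists
  intro top
  have : AddSubgroup.closure {y | ∃ γ ∈ φ.ker, ∃ x ∈ S, y = o γ • x} ≤ (D (φ g ^ m)).ker := by
    rw [AddSubgroup.closure_le]
    rintro _ ⟨γ, hγ, x, hx, rfl⟩
    have := quot_ext (T := (D (φ g ^ m)).comp (DistribSMul.toAddMonoidHom _ (o γ)))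
      (T' := (DistribSMul.toAddMonoidHom _ (o γ)).comp (D (φ g ^ m))) (fun g' => by
        simp only [AddMonoidHom.comp_apply, DistribSMul.toAddMonoidHom_apply, o_smul, hD, map_mul,
          MonoidHom.mem_ker.1 hγ, one_mul]
        split_ifs <;> simp [o_smul]) x
    exact this.trans (by simp [hm x hx])
  have h2 : D (φ g ^ m) (o (g ^ m) • vv a b) = 0 := this (top ▸ AddSubgroup.mem_top _)
  rw [hD, if_pos (map_pow _ _ _)] at h2
  exact h.ne (by rw [← o_one (Γ := Γ) ((I₃ a b).mkQ 1), ← inv_mul_cancel (g ^ m), ← o_smul, h2,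
    smul_zero])

end Pool.Agent.Lib.MP_dab48e_gt
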