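import Mathlib

set_option autoImplicit false

namespace Pool.Agent.Lib.MP_dab48e_gt

/-- `FFR R n M`: there is an exact sequence `0 → F_{n-1} → … → F_0 → M → 0` with each `F_i` a free
`R`-module of finite rank. -/
def FFR (R : Type) [Ring R] : ℕ → (M : Type) → [AddCommGroup M] → [Module R M] → Prop
  | 0, M, _, _ => Subsingleton M
  | n + 1, M, _, _ => ∃ (m : ℕ) (f : (Fin m → R) →ₗ[R] M),
      Function.Surjective f ∧ FFR R n (LinearMap.ker f)

end Pool.Agent.Lib.MP_dab48e_gt
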