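import Pool.Agent.Lib.MP_dab48e_gt.Sim

/-! The group with generators `a, b, s, t`, and its finite free resolution. -/

set_option autoImplicit false

noncomputable section

namespace Pool.Agent.Lib.MP_dab48e_gt

open Function MonoidAlgebra Multiplicative

/-- The relations. -/
structure Pres {G : Type} [Group G] (a b s t : G) : Prop where
  ab : a * b = b * a
  sb : s * b = b * s
  tb : t * b = b * t
  ta : a * t = t * a * a
  sa : a * s = s * a * b

/-- The group is presented by the relations. -/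
structure Univ {G : Type} [Group G] (a b s t : G) : Prop where
  rel : Pres a b s t
  lift : ∀ {H : Type} [Group H] {A B S T : H}, Pres A B S T →
    ∃ θ : G →* H, θ a = A ∧ θ b = B ∧ θ s = S ∧ θ t = T
  gen : ∀ K : Subgroup G, a ∈ K → b ∈ K → s ∈ K → t ∈ K → ∀ g, g ∈ K

theorem exists_univ : ∃ (G : Type) (_ : Group G) (a b s t : G),
    Group.IsFinitelyPresented G ∧ Univ a b s t := by
  let x : Fin 4 → FreeGroup (Fin 4) := FreeGroup.of
  let R : Set (FreeGroup (Fin 4)) := {x 0 * x 1 * (x 1 * x 0)⁻¹, x 2 * x 1 * (x 1 * x 2)⁻¹,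
    x 3 * x 1 * (x 1 * x 3)⁻¹, x 0 * x 3 * (x 3 * x 0 * x 0)⁻¹, x 0 * x 2 * (x 2 * x 0 * x 1)⁻¹}
  have : Finite R := (Set.toFinite R).to_subtype
  refine ⟨PresentedGroup R, inferInstance, .of 0, .of 1, .of 2, .of 3, inferInstance,
    ⟨?_, ?_, ?_, ?_, ?_⟩, fun {H} _ A B S T h => ?_, fun K h0 h1 h2 h3 =>
      PresentedGroup.generated_by R K fun j => by fin_cases j <;> assumption⟩
  iterate 5 exact PresentedGroup.mk_eq_mk_of_mul_inv_mem (rels := R) (by simp [R, x])
  have hf : ∀ r ∈ R, FreeGroup.lift ![A, B, S, T] r = 1 := by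
    simp [R, x, h.ab, h.sb, h.tb, h.ta, h.sa]
  exact ⟨PresentedGroup.toGroup hf, PresentedGroup.toGroup.of hf, PresentedGroup.toGroup.of hf,
    PresentedGroup.toGroup.of hf, PresentedGroup.toGroup.of hf⟩

/-- Shears of the rational plane. -/
def shear : Multiplicative (ℚ × ℚ) →* Equiv.Perm (ℚ × ℚ) where
  toFun c := ⟨fun p => (p.1, p.2 + (c.toAdd.1 * p.1 + c.toAdd.2)),
    fun p => (p.1, p.2 - (c.toAdd.1 * p.1 + c.toAdd.2)), fun p => by simp, fun p => by simp⟩
  map_one' := by ext p <;> simp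
  map_mul' c d := by ext p <;> simp; ring

variable {G : Type} [Group G] {a b s t : G}

theorem Univ.two (h : Univ a b s t) : Two a b := by
  refine ⟨fun g => h.gen (Subgroup.centralizer {b}) ?_ ?_ ?_ ?_ g b rfl |>.symm, fun n m e => ?_⟩
  · simpa [Subgroup.mem_centralizer_iff] using h.rel.ab.symm
  · simp [Subgroup.mem_centralizer_iff]
  · simpa [Subgroup.mem_centralizer_iff] using h.rel.sb.symm
  · simpa [Subgroup.mem_centralizer_iff] using h.rel.tb.symm
  obtain ⟨θ, ha, hb, -⟩ := h.lift (A := shear (ofAdd (1, 0))) (B := shear (ofAdd (0, 1)))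
    (S := (Equiv.addRight 1).prodCongr (.refl _))
    (T := (Equiv.mulLeft₀ 2 two_ne_zero).prodCongr (.refl _))
    (by constructor <;> ext p <;> simp [shear] <;> ring)
  have := congr(θ $e)
  rw [map_mul, map_zpow, map_zpow, ha, hb, ← map_zpow shear, ← map_zpow shear, ← map_mul,
    map_one] at this
  have h0 := congr(($this (0, 0)).2)
  have h1 := congr(($this (1, 0)).2)
  simp [shear] at h0 h1
  rw [h0] at h1
  simpa [h0] using h1

section Affine

variable {V : Type} [AddCommGroup V] [Module (ZG G) V]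

/-- An affine permutation. -/
def af (c : G) (y₀ : V) : Equiv.Perm V :=
  ⟨fun y => o c • y + y₀, fun y => o c⁻¹ • (y - y₀), fun y => by simp [o_smul, o_one],
    fun y => by simp [o_smul, o_one]⟩

theorem af_mul (c c' : G) (y y' : V) : af c y * af c' y' = af (c * c') (o c • y' + y) := by
  ext z
  simp [af, o_smul, add_assoc]

theorem Univ.der (h : Univ a b s t) {W : Type} [AddCommGroup W] [Module (ZG G) W]
    (D : V →ₗ[ZG G] W) (w : W) {x y : V} (ax : o a • x = x) (bx : o b • x = x) (ay : o a • y = y)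
    (hy : o b • y = y) (aw : o a • w = w) (bw : o b • w = w) (Dx : D x = o s • w - w)
    (Dy : D y = o t • w - w) : ∃ d : G → V, d a = 0 ∧ d b = 0 ∧ d s = x ∧ d t = y ∧
      (∀ g g', d (g * g') = o g • d g' + d g) ∧ ∀ g, D (d g) = o g • w - w := by
  obtain ⟨θ, ha, hb, hs, ht⟩ := h.lift (A := af a (0 : V)) (B := af b 0) (S := af s x) (T := af t y)
    (by constructor <;> simp [af_mul, ax, bx, ay, hy, h.rel.ab, h.rel.sb, h.rel.tb, h.rel.ta,
      h.rel.sa])
  let K : Subgroup G :=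
    { carrier := {g | ∃ z, θ g = af g z ∧ D z = o g • w - w}
      one_mem' := ⟨0, by ext z; simp [af, o_one], by simp [o_one]⟩
      mul_mem' := by
        rintro g g' ⟨z, e, hz⟩ ⟨z', e', hz'⟩
        exact ⟨_, by rw [map_mul, e, e', af_mul], by simp [hz, hz', smul_sub, o_smul]⟩
      inv_mem' := by
        rintro g ⟨z, e, hz⟩
        exact ⟨-(o g⁻¹ • z), by
          rw [map_inv, e]
          ext u
          simp [af, Equiv.Perm.inv_def, sub_eq_add_neg],
          by simp [hz, smul_sub, o_smul, o_one]⟩ }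
  choose d e hd using h.gen K ⟨0, ha, by simp [aw]⟩ ⟨0, hb, by simp [bw]⟩ ⟨x, hs, Dx⟩ ⟨y, ht, Dy⟩
  have k : ∀ {g : G} {z : V}, θ g = af g z → d g = z := fun {g z} hz => by
    simpa [af] using congr($((e g).symm.trans hz) 0)
  exact ⟨d, k ha, k hb, k hs, k ht, fun g g' => k (by rw [map_mul, e, e, af_mul]), hd⟩

end Affine

theorem Univ.fl (h : Univ a b s t) :
    FFR (ZG G) 4 (Representation.trivial ℤ G ℤ).asModule := by
  let N := ZG G ⧸ I₂ a b 1
  let w : N := (I₂ a b 1).mkQ 1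
  have aw : o a • w = w := (rel_of_mem (Submodule.mem_sup_left mem₁)).trans (one_smul ℤ w)
  have bw : o b • w = w := (rel_of_mem mem₂).trans (one_smul ℤ w)
  have L : ∀ {V : Type} [AddCommGroup V] [Module (ZG G) V] (y : V), o a • y = y → o b • y = y →
      ∃ f : N →ₗ[ZG G] V, f w = y := fun y h1 h2 =>
    ⟨(I₂ a b 1).liftQ _ (le_ker₂ h1 (by simpa using h2)), one_smul _ y⟩
  obtain ⟨fs, hs⟩ := L (o s • w - w)
    (by rw [smul_sub, o_smul, h.rel.sa, ← o_smul, ← o_smul, bw, aw])
    (by rw [smul_sub, o_smul, ← h.rel.sb, ← o_smul, bw])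
  obtain ⟨ft, ht⟩ := L (o t • w - w)
    (by rw [smul_sub, o_smul, h.rel.ta, ← o_smul, ← o_smul, aw, aw])
    (by rw [smul_sub, o_smul, ← h.rel.tb, ← o_smul, bw])
  have tr : ∀ (g : G) (z : (Representation.trivial ℤ G ℤ).asModule), o g • z = z := fun g z => by
    rw [Representation.single_smul, one_smul]
    rfl
  let u := (Representation.trivial ℤ G ℤ).asModuleEquiv
  obtain ⟨ε, hε⟩ := L (u.symm 1) (tr _ _) (tr _ _)
  obtain ⟨d, da, db, ds, dt, dm, hd⟩ := h.der (fs.coprod ft) w (x := (w, 0)) (y := (0, w))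
    (by simp [aw]) (by simp [bw]) (by simp [aw]) (by simp [bw]) aw bw (by simp [hs]) (by simp [ht])
  obtain ⟨δ, hδ⟩ := descend (I := I₂ a b 1) d
    (kill₂ (fun g => by simp [dm, da]) fun g => by simp [dm, db])
  have k1 : ∀ x, δ (fs x) = (x, 0) := quot_ext (T := δ.comp fs.toAddMonoidHom) (T' := .inl _ _)
    fun g => by
      change δ (fs (o g • w)) = (o g • w, 0)
      rw [map_smul, hs, smul_sub, o_smul, map_sub, hδ, hδ, dm, ds]
      simp
  have k2 : ∀ x, δ (ft x) = (0, x) := quot_ext (T := δ.comp ft.toAddMonoidHom) (T' := .inr _ _)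
    fun g => by
      change δ (ft (o g • w)) = (0, o g • w)
      rw [map_smul, ht, smul_sub, o_smul, map_sub, hδ, hδ, dm, dt]
      simp
  have k3 : ∀ x, fs.coprod ft (δ x) + u (ε x) • w = x :=
    quot_ext (T := (fs.coprod ft).toAddMonoidHom.comp δ +
      (zmultiplesHom N w).comp (u.toAddMonoidHom.comp ε.toAddMonoidHom)) (T' := .id _) fun g => by
      change fs.coprod ft (δ (o g • w)) + u (ε (o g • w)) • w = o g • w
      rw [hδ, hd, map_smul, tr, hε, u.apply_symm_apply, one_smul, sub_add_cancel]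
  refine FFR.coker (fs.coprod ft) ε
    (LeftInverse.injective (g := δ) fun z => by simp [k1, k2]) (fun x => ⟨fun e => ?_, ?_⟩)
    (fun z => ⟨u z • w, ?_⟩) (FFR.ext (.inl _ N N) (.snd _ N N) LinearMap.inl_injective
      Function.Exact.inl_snd LinearMap.snd_surjective (h.two.ffr₂ 1) (h.two.ffr₂ 1))
    (h.two.ffr₂ 1).succ
  · exact ⟨δ x, by simpa [e] using k3 x⟩
  · rintro ⟨z, rfl⟩
    have e1 : ε ∘ₗ fs = 0 := lin_ext (show ε (fs w) = 0 by simp [hs, tr])
    have e2 : ε ∘ₗ ft = 0 := lin_ext (show ε (ft w) = 0 by simp [ht, tr])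
    rw [LinearMap.coprod_apply, map_add]
    exact (congr($e1 z.1 + $e2 z.2)).trans (add_zero _)
  · rw [map_zsmul, hε, ← map_zsmul, smul_eq_mul, mul_one, u.symm_apply_apply]

end Pool.Agent.Lib.MP_dab48e_gt
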