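import Pool.Agent.Lib.MP_dab48e_gt.Res

/-! Modules induced from a free abelian subgroup of rank two. -/

set_option autoImplicit false

noncomputable section

namespace Pool.Agent.Lib.MP_dab48e_gt

open Function MonoidAlgebra

variable {Γ : Type} [Group Γ] {N : Type} [AddCommGroup N]

/-- The integral group ring. -/
abbrev ZG (Γ : Type) [Group Γ] : Type := MonoidAlgebra ℤ Γ

/-- A group element in the group ring. -/
abbrev o (g : Γ) : ZG Γ := single g 1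

theorem o_mul (g h : Γ) : o g * o h = o (g * h) := by simp [o, single_mul_single]

theorem o_smul [Module (ZG Γ) N] (g h : Γ) (y : N) : o g • o h • y = o (g * h) • y := by
  rw [smul_smul, o_mul]

theorem o_one [Module (ZG Γ) N] (y : N) : o (1 : Γ) • y = y := one_smul (ZG Γ) y

/-- The additive extension of a function on the group. -/
def ex (f : Γ → N) : ZG Γ →+ N :=
  (Finsupp.linearCombination ℤ f).toAddMonoidHom.comp coeffAddEquiv.toAddMonoidHom

theorem ex_o (f : Γ → N) (g : Γ) : ex f (o g) = f g := by simp [ex]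

theorem hom_ext {T T' : ZG Γ →+ N} (h : ∀ g, T (o g) = T' (o g)) : T = T' :=
  addMonoidHom_ext fun g c => by
    have : (single g c : ZG Γ) = c • o g := by simp [o]
    rw [this, map_zsmul, map_zsmul, h]

theorem ex_mul {f : Γ → N} {c : Γ} (u : N →+ N) (h : ∀ g, f (g * c) = u (f g)) (r : ZG Γ) :
    ex f (r * o c) = u (ex f r) :=
  congr($(hom_ext (T := (ex f).comp (AddMonoidHom.mulRight (o c))) (T' := u.comp (ex f))
    fun g => by simp [ex_o, h]) r)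

theorem quot_ext {I : Submodule (ZG Γ) (ZG Γ)} {T T' : (ZG Γ ⧸ I) →+ N}
    (h : ∀ g : Γ, T (o g • I.mkQ 1) = T' (o g • I.mkQ 1)) (x : ZG Γ ⧸ I) : T x = T' x := by
  obtain ⟨r, rfl⟩ := I.mkQ_surjective x
  exact congr($(hom_ext (T := T.comp I.mkQ.toAddMonoidHom) (T' := T'.comp I.mkQ.toAddMonoidHom)
    fun g => by simpa [← Submodule.Quotient.mk_smul] using h g) r)

theorem descend {I : Submodule (ZG Γ) (ZG Γ)} (f : Γ → N) (h : ∀ r ∈ I, ex f r = 0) :
    ∃ T : (ZG Γ ⧸ I) →+ N, ∀ g, T (o g • I.mkQ 1) = f g :=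
  ⟨QuotientAddGroup.lift I.toAddSubgroup (ex f) h, fun g => by
    rw [← map_smul, smul_eq_mul, mul_one]
    exact ex_o f g⟩

theorem kill {I : Submodule (ZG Γ) (ZG Γ)} {z : ZG Γ} {T : ZG Γ →+ N} (h : ∀ r ∈ I, T r = 0)
    (hz : ∀ r, T (r * z) = 0) : ∀ r ∈ I ⊔ ZG Γ ∙ z, T r = 0 := fun r hr => by
  obtain ⟨i, hi, _, hj, rfl⟩ := Submodule.mem_sup.1 hr
  obtain ⟨c, rfl⟩ := Submodule.mem_span_singleton.1 hj
  rw [map_add, h i hi, smul_eq_mul, hz, add_zero]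

theorem zpow_smul_eq [Module (ZG Γ) N] {c : Γ} {ε : ℤˣ} {y : N} (h : o c • y = (ε : ℤ) • y)
    (m : ℤ) : o (c ^ m) • y = ((ε ^ m : ℤˣ) : ℤ) • y := by
  have e : ∀ m : ℤ, o (c ^ (m + 1)) • y = (ε : ℤ) • o (c ^ m) • y := fun m => by
    rw [zpow_add_one, ← o_smul, h, smul_comm]
  induction m using Int.induction_on with
  | zero => simp [o_one]
  | succ m ih => rw [e, ih, zpow_add_one, smul_smul, Units.val_mul, mul_comm]
  | pred m ih =>
    have := e (-(m : ℤ) - 1)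
    rw [sub_add_cancel, ih] at this
    rw [zpow_sub_one ε, mul_comm, Units.val_mul, ← smul_smul, this, smul_smul, Units.inv_mul,
      one_smul]

theorem mul_inj {c : Γ} (hc : ∀ n : ℤ, c ^ n = 1 → n = 0) (ε : ℤˣ) {r : ZG Γ}
    (h : r * (o c - (ε : ℤ)) = 0) : r = 0 := by
  have h1 : ∀ g, r.coeff g = ε * r.coeff (g * c) := fun g => by
    rw [mul_sub, sub_eq_zero, ← (Int.cast_commute _ r).eq, ← zsmul_eq_mul] at h
    simpa [-zsmul_eq_mul] using congr(($h).coeff (g * c))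
  by_contra h0
  obtain ⟨g, hg⟩ := Finsupp.support_nonempty_iff.2 (mt coeff_eq_zero.1 h0)
  have h2 : ∀ n : ℕ, g * c ^ n ∈ r.coeff.support := fun n => by
    induction n with
    | zero => simpa using hg
    | succ n ih =>
      rw [Finsupp.mem_support_iff] at ih ⊢
      rw [pow_succ, ← mul_assoc]
      exact fun e => ih (by rw [h1, e, mul_zero])
  refine Set.infinite_of_injective_forall_mem (fun m n e => ?_) h2 r.coeff.support.finite_toSet
  have := hc ((m : ℤ) - n) (by rw [zpow_sub, zpow_natCast, zpow_natCast, mul_left_cancel e,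
    mul_inv_cancel])
  omega

/-- `b` is central and `a`, `b` are independent. -/
structure Two (a b : Γ) : Prop where
  cen : ∀ g, g * b = b * g
  ind : ∀ n m : ℤ, b ^ n * a ^ m = 1 → n = 0 ∧ m = 0

variable {a b : Γ}

theorem Two.coords (h : Two a b) : ∃ (ρ : Γ → Γ) (ν μ : Γ → ℤ),
    (∀ g, g = ρ g * b ^ ν g * a ^ μ g) ∧ (∀ g, ρ (g * a) = ρ g ∧ ν (g * a) = ν g) ∧
      ∀ g, ρ (g * b) = ρ g ∧ ν (g * b) = ν g + 1 := by
  have c : ∀ (g : Γ) (n : ℤ), g * b ^ n = b ^ n * g := fun g n =>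
    (Commute.zpow_right (h.cen g) n).eq
  let H : Subgroup Γ :=
    { carrier := {x | ∃ n m : ℤ, x = b ^ n * a ^ m}
      one_mem' := ⟨0, 0, by simp⟩
      mul_mem' := by
        rintro _ _ ⟨n, m, rfl⟩ ⟨n', m', rfl⟩
        exact ⟨n + n', m + m', by
          rw [zpow_add, zpow_add, mul_assoc, mul_assoc, ← mul_assoc (a ^ m), c, mul_assoc]⟩
      inv_mem' := by
        rintro _ ⟨n, m, rfl⟩
        exact ⟨-n, -m, by rw [mul_inv_rev, ← zpow_neg, ← zpow_neg, c]⟩ }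
  have h1 : ∀ g : Γ, ∃ n m : ℤ, g = (g : Γ ⧸ H).out * b ^ n * a ^ m := fun g => by
    obtain ⟨n, m, e⟩ : ((g : Γ ⧸ H).out)⁻¹ * g ∈ H := QuotientGroup.eq.1 (Quotient.out_eq _)
    exact ⟨n, m, by rw [mul_assoc, ← e, mul_inv_cancel_left]⟩
  choose ν μ e using h1
  have key : ∀ (g : Γ) (n m : ℤ), ((g * (b ^ n * a ^ m) : Γ) : Γ ⧸ H).out = (g : Γ ⧸ H).out ∧
      ν (g * (b ^ n * a ^ m)) = ν g + n := fun g n m => by
    have e1 : ((g * (b ^ n * a ^ m) : Γ) : Γ ⧸ H) = g := QuotientGroup.mk_mul_of_mem g ⟨n, m, rfl⟩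
    refine ⟨by rw [e1], ?_⟩
    have e2 := e (g * (b ^ n * a ^ m))
    rw [e1] at e2
    generalize ν (g * _) = n' at e2 ⊢
    generalize μ (g * _) = m' at e2
    rw [e g, mul_assoc, mul_assoc, mul_assoc, ← e g, mul_right_inj, ← mul_assoc (a ^ _), c,
      mul_assoc, ← mul_assoc, ← zpow_add, ← zpow_add] at e2
    have := (h.ind (ν g + n - n') (μ g + m - m') (by
      rw [zpow_sub, zpow_sub, ← zpow_neg b, ← c (b ^ _), ← mul_assoc, mul_assoc (b ^ (-n')), e2]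
      simp)).1
    omega
  exact ⟨fun g => (g : Γ ⧸ H).out, ν, μ, e, fun g => by simpa using key g 0 1,
    fun g => by simpa using key g 1 0⟩

/-- The relation `a = 1`. -/
abbrev I₁ (a : Γ) : Submodule (ZG Γ) (ZG Γ) := ⊥ ⊔ ZG Γ ∙ (o a - ((1 : ℤˣ) : ℤ))

/-- The relations `a = 1`, `b = ε`. -/
abbrev I₂ (a b : Γ) (ε : ℤˣ) : Submodule (ZG Γ) (ZG Γ) := I₁ a ⊔ ZG Γ ∙ (o b - (ε : ℤ))

/-- The relations `a = 1`, `b = -1`, `3 = 0`. -/
abbrev I₃ (a b : Γ) : Submodule (ZG Γ) (ZG Γ) := I₂ a b (-1) ⊔ ZG Γ ∙ ((3 : ℤ) : ZG Γ)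

theorem ex_rel {f : Γ → N} {c : Γ} {ε : ℤ} (h : ∀ g, f (g * c) = ε • f g) (r : ZG Γ) :
    ex f (r * (o c - ε)) = 0 := by
  rw [mul_sub, map_sub, ex_mul (zsmulAddGroupHom ε) h, ← (Int.cast_commute _ r).eq, ← zsmul_eq_mul,
    map_zsmul]
  exact sub_self _

theorem kill₁ {f : Γ → N} (h : ∀ g, f (g * a) = f g) : ∀ r ∈ I₁ a, ex f r = 0 :=
  kill (fun r hr => by rw [(Submodule.mem_bot _).1 hr, map_zero]) (ex_rel fun g => by simp [h])

theorem kill₂ {f : Γ → N} {ε : ℤˣ} (h : ∀ g, f (g * a) = f g)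
    (h' : ∀ g, f (g * b) = (ε : ℤ) • f g) : ∀ r ∈ I₂ a b ε, ex f r = 0 :=
  kill (kill₁ h) (ex_rel h')

theorem kill₃ {f : Γ → N} (h : ∀ g, f (g * a) = f g) (h' : ∀ g, f (g * b) = -f g)
    (h3 : ∀ g, (3 : ℤ) • f g = 0) : ∀ r ∈ I₃ a b, ex f r = 0 :=
  kill (kill₂ h fun g => by simp [h']) fun r => by
    rw [← (Int.cast_commute _ r).eq, ← zsmul_eq_mul, map_zsmul]
    exact congr($(hom_ext (T := (zsmulAddGroupHom 3).comp (ex f)) (T' := 0)
      fun g => by simpa [ex_o] using h3 g) r)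

theorem rel_of_mem {I : Submodule (ZG Γ) (ZG Γ)} {c : Γ} {ε : ℤ} (h : o c - ε ∈ I) :
    o c • I.mkQ 1 = ε • I.mkQ 1 := by
  rw [← map_smul, ← map_zsmul]
  exact (Submodule.Quotient.eq _).2 (by simpa using h)

theorem mem_of_ex {I : Submodule (ZG Γ) (ZG Γ)} {f : Γ → ZG Γ}
    (h : ∀ g, f g • I.mkQ 1 = o g • I.mkQ 1) {r : ZG Γ} (hr : ex f r = 0) : r ∈ I := by
  have := congr($(hom_ext (T := I.mkQ.toAddMonoidHom.comp (ex f)) (T' := I.mkQ.toAddMonoidHom)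
    fun g => by simpa [ex_o, ← Submodule.Quotient.mk_smul] using h g) r)
  rw [AddMonoidHom.comp_apply, hr, map_zero] at this
  exact (Submodule.Quotient.mk_eq_zero _).1 this.symm

theorem Two.o_cen (h : Two a b) (r : ZG Γ) : r * o b = o b * r :=
  congr($(hom_ext (T := AddMonoidHom.mulRight (o b)) (T' := AddMonoidHom.mulLeft (o b))
    fun g => by simp [h.cen g]) r)

theorem mem₁ : o a - ((1 : ℤˣ) : ℤ) ∈ I₁ a :=
  Submodule.mem_sup_right (Submodule.mem_span_singleton_self _)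

theorem mem₂ {ε : ℤˣ} : o b - (ε : ℤ) ∈ I₂ a b ε :=
  Submodule.mem_sup_right (Submodule.mem_span_singleton_self _)

theorem Two.ffr₂ (h : Two a b) (ε : ℤˣ) : FFR (ZG Γ) 3 (ZG Γ ⧸ I₂ a b ε) := by
  obtain ⟨ρ, ν, μ, e, ea, eb⟩ := h.coords
  refine (FFR.self.step _ fun r => ⟨fun hr => ?_, fun hr => ?_⟩).step _
    fun r => ⟨fun hr => ?_, fun hr => ?_⟩
  · exact mul_inj (fun n hn => (h.ind 0 n (by simpa using hn)).2) 1 hr
  · rw [(Submodule.mem_bot _).1 hr, zero_mul]; exact Submodule.zero_mem _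
  · refine mem_of_ex (f := fun g => o (ρ g * b ^ ν g)) (fun g => ?_)
      (mul_inj (fun n hn => (h.ind n 0 (by simpa using hn)).1) ε ?_)
    · conv_rhs => rw [e g, ← o_smul, zpow_smul_eq (rel_of_mem mem₁)]
      simp
    · rw [← kill₁ (f := fun g => o (ρ g * b ^ ν g)) (fun g => by rw [(ea g).1, (ea g).2]) _ hr,
        mul_sub, mul_sub, map_sub, ex_mul (AddMonoidHom.mulRight (o b)) fun g => by
          rw [(eb g).1, (eb g).2, zpow_add_one, ← mul_assoc, ← o_mul]; rfl,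
        ← (Int.cast_commute _ r).eq, ← zsmul_eq_mul, map_zsmul, zsmul_eq_mul,
        (Int.cast_commute _ _).eq]
      rfl
  · rw [mul_sub, h.o_cen, ← (Int.cast_commute _ r).eq, ← sub_mul]
    exact Submodule.smul_mem _ _ hr

theorem Two.ffr₃ (h : Two a b) : FFR (ZG Γ) 4 (ZG Γ ⧸ I₃ a b) := by
  obtain ⟨ρ, ν, μ, e, ea, eb⟩ := h.coords
  refine (h.ffr₂ (-1)).step _ fun r => ⟨fun hr => ?_, fun hr => ?_⟩
  · refine mem_of_ex (f := fun g => (((-1) ^ ν g : ℤˣ) : ℤ) • o (ρ g)) (fun g => ?_) ?_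
    · conv_rhs => rw [e g, ← o_smul, zpow_smul_eq (rel_of_mem (Submodule.mem_sup_left mem₁)),
        one_zpow, Units.val_one, one_smul, ← o_smul, zpow_smul_eq (rel_of_mem mem₂), smul_comm]
      rw [smul_assoc]
    · have := kill₂ (f := fun g => (((-1) ^ ν g : ℤˣ) : ℤ) • o (ρ g))
        (fun g => by rw [(ea g).1, (ea g).2])
        (fun g => by rw [(eb g).1, (eb g).2, zpow_add_one, smul_smul, Units.val_mul, mul_comm]) _ hr
      rw [← (Int.cast_commute _ r).eq, ← zsmul_eq_mul, map_zsmul, ← coeff_eq_zero] at this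
      exact coeff_eq_zero.1 ((smul_eq_zero.1 this).resolve_left (by norm_num))
  · rw [← (Int.cast_commute _ r).eq]
    exact Submodule.smul_mem _ _ hr

theorem Two.ne (h : Two a b) : (I₃ a b).mkQ 1 ≠ 0 := by
  obtain ⟨ρ, ν, μ, -, ea, eb⟩ := h.coords
  obtain ⟨T, hT⟩ := descend (I := I₃ a b) (fun g => (-1 : ZMod 3) ^ ν g)
    (kill₃ (fun g => by rw [(ea g).2]) (fun g => by rw [(eb g).2, zpow_add_one₀ (by decide)]; ring)
      fun g => by rw [zsmul_eq_mul, show ((3 : ℤ) : ZMod 3) = 0 from rfl, zero_mul])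
  intro h0
  have := hT 1
  rw [h0, smul_zero, map_zero] at this
  exact zpow_ne_zero _ (by decide) this.symm

end Pool.Agent.Lib.MP_dab48e_gt
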