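import Pool.Agent.Lib.MP_dab48e_gt.Defs

/-! Closure properties of finite free resolutions. -/

set_option autoImplicit false

namespace Pool.Agent.Lib.MP_dab48e_gt

open Function LinearMap

variable {R : Type} [Ring R]

theorem FFR.equiv : ∀ {n : ℕ} {A B : Type} [AddCommGroup A] [Module R A] [AddCommGroup B]
    [Module R B], FFR R n A → (A ≃ₗ[R] B) → FFR R n B
  | 0, _, _, _, _, _, _, h, e => haveI : Subsingleton _ := h; e.symm.injective.subsingleton
  | _ + 1, _, _, _, _, _, _, ⟨m, f, hf, h⟩, e =>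
    ⟨m, e.toLinearMap ∘ₗ f, e.surjective.comp hf, by rwa [LinearEquiv.ker_comp]⟩

theorem FFR.succ : ∀ {n : ℕ} {A : Type} [AddCommGroup A] [Module R A], FFR R n A → FFR R (n + 1) A
  | 0, _, _, _, h => haveI : Subsingleton _ := h
    ⟨0, 0, fun _ => ⟨0, Subsingleton.elim _ _⟩, inferInstanceAs (Subsingleton _)⟩
  | _ + 1, _, _, _, ⟨m, f, hf, h⟩ => ⟨m, f, hf, h.succ⟩

theorem FFR.ext : ∀ {n : ℕ} {A B C : Type} [AddCommGroup A] [Module R A] [AddCommGroup B]
    [Module R B] [AddCommGroup C] [Module R C] (f : A →ₗ[R] B) (g : B →ₗ[R] C),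
    Injective f → Exact f g → Surjective g → FFR R n A → FFR R n C → FFR R n B
  | 0, _, _, _, _, _, _, _, _, _, f, g, _, he, _, hA, hC => by
    have : Subsingleton _ := hA
    have : Subsingleton _ := hC
    refine subsingleton_of_forall_eq 0 fun y => ?_
    obtain ⟨x, rfl⟩ := (he y).1 (Subsingleton.elim _ _)
    rw [Subsingleton.elim x 0, map_zero]
  | n + 1, _, B, _, _, _, _, _, _, _, f, g, hf, he, hg, ⟨m, p, hp, hA⟩, ⟨m', q, hq, hC⟩ => by
    obtain ⟨l, hl⟩ := Module.projective_lifting_property g q hg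
    have hl' : ∀ y, g (l y) = q y := fun y => congr($hl y)
    let r : ((Fin m → R) × (Fin m' → R)) →ₗ[R] B := (f ∘ₗ p).coprod l
    have gr : ∀ z, g (r z) = q z.2 := fun z => by simp [r, he.apply_apply_eq_zero, hl']
    have hr : Surjective r := fun y => by
      obtain ⟨v, hv⟩ := hq (g y)
      obtain ⟨x, hx⟩ := (he (y - l v)).1 (by rw [map_sub, hl', hv, sub_self])
      obtain ⟨u, rfl⟩ := hp x
      exact ⟨(u, v), by simp [r, hx]⟩
    have hk : FFR R n (ker r) := by
      refine FFR.ext (((inl R _ _).domRestrict (ker p)).codRestrict (ker r) fun x => by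
          simp [r, mem_ker.1 x.2])
        (((snd R _ _).domRestrict (ker r)).codRestrict (ker q) fun z => by
          have := gr z
          rw [mem_ker.1 z.2, map_zero] at this
          exact this.symm) (fun x y h => Subtype.ext congr(($h).1.1)) (fun z => ⟨fun h => ?_, ?_⟩)
        (fun y => ?_) hA hC
      · have h2 : z.1.2 = 0 := congr(($h).1)
        have h0 : f (p z.1.1) + l z.1.2 = 0 := z.2
        have h1 : f (p z.1.1) = 0 := by rwa [h2, map_zero, add_zero] at h0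
        exact ⟨⟨z.1.1, hf (h1.trans f.map_zero.symm)⟩, Subtype.ext (Prod.ext rfl h2.symm)⟩
      · rintro ⟨x, rfl⟩
        rfl
      · obtain ⟨x, hx⟩ := (he (l y)).1 (by rw [hl', mem_ker.1 y.2])
        obtain ⟨u, rfl⟩ := hp x
        exact ⟨⟨(-u, y), by simp [r, hx]⟩, rfl⟩
    let e : (Fin (m + m') → R) ≃ₗ[R] (Fin m → R) × (Fin m' → R) :=
      (LinearEquiv.funCongrLeft R R finSumFinEquiv).trans (LinearEquiv.sumArrowLequivProdArrow ..)
    refine ⟨m + m', r ∘ₗ e.toLinearMap, hr.comp e.surjective, hk.equiv ?_⟩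
    rw [ker_comp]
    exact (e.ofSubmodule' _).symm

theorem FFR.coker {n : ℕ} {A B C : Type} [AddCommGroup A] [Module R A] [AddCommGroup B]
    [Module R B] [AddCommGroup C] [Module R C] (f : A →ₗ[R] B) (g : B →ₗ[R] C)
    (hf : Injective f) (he : Exact f g) (hg : Surjective g) (hA : FFR R n A)
    (hB : FFR R (n + 1) B) : FFR R (n + 1) C := by
  obtain ⟨m, p, hp, hK⟩ := hB
  refine ⟨m, g ∘ₗ p, hg.comp hp, ?_⟩
  have hm : ∀ x : ker (g ∘ₗ p), p x ∈ range f := fun x => (he _).1 x.2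
  let e := LinearEquiv.ofInjective f hf
  let q : ker (g ∘ₗ p) →ₗ[R] A := e.symm.toLinearMap ∘ₗ (p.domRestrict _).codRestrict _ hm
  have hq : ∀ x, f (q x) = p x := fun x => congr(($(e.apply_symm_apply ⟨_, hm x⟩)).1)
  refine FFR.ext (Submodule.inclusion (ker_le_ker_comp p g)) q (Submodule.inclusion_injective _)
    (fun x => ⟨fun h => ⟨⟨x, ?_⟩, rfl⟩, ?_⟩) (fun a => ?_) hK hA
  · rw [mem_ker, ← hq, h, map_zero]
  · rintro ⟨y, rfl⟩
    exact hf ((hq _).trans ((mem_ker.1 y.2).trans f.map_zero.symm))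
  · obtain ⟨x, hx⟩ := hp (f a)
    exact ⟨⟨x, by simp [hx, he.apply_apply_eq_zero]⟩, hf ((hq _).trans hx)⟩

theorem FFR.self : FFR R 1 (R ⧸ (⊥ : Submodule R R)) :=
  FFR.equiv (A := Fin 1 → R) ⟨1, .id, surjective_id, by
    rw [ker_id]; exact inferInstanceAs (Subsingleton _)⟩
    ((LinearEquiv.funUnique _ R R).trans (Submodule.quotEquivOfEqBot _ rfl).symm)

/-- One more element of a regular sequence. -/
theorem FFR.step {n : ℕ} {I : Submodule R R} (z : R) (h1 : ∀ r, r * z ∈ I ↔ r ∈ I)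
    (h : FFR R n (R ⧸ I)) : FFR R (n + 1) (R ⧸ (I ⊔ R ∙ z)) := by
  refine FFR.coker (I.mapQ I (toSpanSingleton R R z) fun r hr => (h1 r).2 hr)
    (Submodule.factor le_sup_left) ?_ (fun x => ?_) (Submodule.factor_surjective _) h h.succ
  · rw [injective_iff_map_eq_zero]
    intro x hx
    obtain ⟨r, rfl⟩ := I.mkQ_surjective x
    exact (Submodule.Quotient.mk_eq_zero _).2 ((h1 r).1 ((Submodule.Quotient.mk_eq_zero _).1 hx))
  · obtain ⟨r, rfl⟩ := I.mkQ_surjective x
    refine (Submodule.Quotient.mk_eq_zero _).trans ⟨fun hr => ?_, ?_⟩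
    · obtain ⟨i, hi, _, hj, rfl⟩ := Submodule.mem_sup.1 hr
      obtain ⟨c, rfl⟩ := Submodule.mem_span_singleton.1 hj
      exact ⟨I.mkQ c, (Submodule.Quotient.eq _).2 (by simpa using hi)⟩
    · rintro ⟨y, hy⟩
      obtain ⟨c, rfl⟩ := I.mkQ_surjective y
      have h2 : c • z - r ∈ I := (Submodule.Quotient.eq _).1 hy
      have := (I ⊔ R ∙ z).sub_mem (Submodule.mem_sup_right
        (Submodule.mem_span_singleton.2 ⟨c, rfl⟩)) (Submodule.mem_sup_left h2)
      rwa [sub_sub_cancel] at this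

end Pool.Agent.Lib.MP_dab48e_gt
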