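import Pool.Agent.Lib.MP_dab48e_gt.Dbl

/-! Restriction of the induced module to `G × kℤ`. -/

set_option autoImplicit false

noncomputable section

namespace Pool.Agent.Lib.MP_dab48e_gt

open Function MonoidAlgebra Multiplicative

variable {G : Type} [Group G]

/-- The inclusion of the first factor. -/
abbrev i₁ (g : G) : G × Multiplicative ℤ := (g, 1)

/-- The additive generators of the induced module over `G × ℤ`. -/
def uu (a b g : G) (n : ℤ) : Mo (i₁ a) (i₁ b) := o (g, ofAdd n) • vv (i₁ a) (i₁ b)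

variable {a b : G}

theorem uu_a (g : G) (n : ℤ) : uu a b (g * a) n = uu a b g n := by
  rw [uu, uu, ← ga (g, ofAdd n), Prod.mk_mul_mk, mul_one]

theorem uu_b (g : G) (n : ℤ) : uu a b (g * b) n = -uu a b g n := by
  rw [uu, uu, ← gb (g, ofAdd n), Prod.mk_mul_mk, mul_one]

theorem smul_uu (g g' : G) (n : Multiplicative ℤ) (n' : ℤ) :
    o (g, n) • uu a b g' n' = uu a b (g * g') (n.toAdd + n') := o_smul _ _ _

theorem uu_desc (f : ℤ → Option ℤ) : ∃ T : Mo (i₁ a) (i₁ b) →+ Mo (i₁ a) (i₁ b),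
    ∀ g n, T (uu a b g n) = (f n).elim 0 (uu a b g) := by
  obtain ⟨T, hT⟩ := desc₃ (a := i₁ a) (b := i₁ b)
    (fun γ => (f γ.2.toAdd).elim 0 (uu a b γ.1))
    (fun γ => by cases h : f γ.2.toAdd <;> simp [h, uu_a])
    (fun γ => by cases h : f γ.2.toAdd <;> simp [h, uu_b]) fun _ => three _
  exact ⟨T, fun g n => hT (g, ofAdd n)⟩

theorem uu_ext {N : Type} [AddCommGroup N] {T T' : Mo (i₁ a) (i₁ b) →+ N}
    (h : ∀ g n, T (uu a b g n) = T' (uu a b g n)) (x : Mo (i₁ a) (i₁ b)) : T x = T' x :=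
  quot_ext (I := I₃ (i₁ a) (i₁ b)) (fun γ => by
    have := h γ.1 γ.2.toAdd
    rwa [uu, ofAdd_toAdd, Prod.mk.eta] at this) x

theorem self_sim (a b : G) (k : ℕ) :
    ∃ F : (Fin (k + 1) → Mo (i₁ a) (i₁ b)) ≃+ Mo (i₁ a) (i₁ b),
      ∀ (g : G) (n : Multiplicative ℤ) (y : Fin (k + 1) → Mo (i₁ a) (i₁ b)),
        F (o (g, n) • y) = o (g, n ^ (k + 1)) • F y := by
  have hk : (0 : ℤ) < (k + 1 : ℕ) := by positivity
  choose P hP using fun j : Fin (k + 1) =>
    uu_desc (a := a) (b := b) fun n => some (j + (k + 1 : ℕ) * n)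
  choose Q hQ using fun j : Fin (k + 1) =>
    uu_desc (a := a) (b := b) fun n => if n % (k + 1 : ℕ) = j then some (n / (k + 1 : ℕ)) else none
  have QP : ∀ i j x, Q i (P j x) = (Pi.single j x : Fin (k + 1) → _) i := fun i j => by
    refine uu_ext (T := (Q i).comp (P j))
      (T' := (Pi.evalAddMonoidHom _ i).comp (AddMonoidHom.single (fun _ => _) j)) fun g n => ?_
    have h1 : ((j : ℕ) : ℤ) % (k + 1 : ℕ) = j := Int.emod_eq_of_lt (by omega) (by omega)
    have h2 : ((j : ℕ) : ℤ) / (k + 1 : ℕ) = 0 := Int.ediv_eq_zero_of_lt (by omega) (by omega)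
    simp only [AddMonoidHom.comp_apply, hP, Option.elim_some, hQ, Int.add_mul_emod_self_left, h1,
      Int.add_mul_ediv_left _ _ hk.ne', h2, zero_add, Nat.cast_inj, Fin.val_inj]
    split_ifs with h
    · simp [h]
    · simp [Ne.symm h]
  have PQ : ∀ x, ∑ j, P j (Q j x) = x := fun x => by
    have := uu_ext (T := ∑ j, (P j).comp (Q j)) (T' := .id _) (fun g n => ?_) x
    · simpa using this
    · have h1 := Int.emod_nonneg n hk.ne'
      have h2 := Int.emod_lt_of_pos n hk
      rw [AddMonoidHom.finsetSum_apply,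
        Finset.sum_eq_single (⟨(n % (k + 1 : ℕ)).toNat, by omega⟩ : Fin (k + 1))]
      · rw [AddMonoidHom.comp_apply, hQ, if_pos (Int.toNat_of_nonneg h1).symm, Option.elim_some, hP,
          Option.elim_some, Int.toNat_of_nonneg h1, Int.emod_add_mul_ediv]
        rfl
      · intro j _ hj
        rw [AddMonoidHom.comp_apply, hQ, if_neg fun e => hj (Fin.ext (by dsimp only; omega)),
          Option.elim_none, map_zero]
      · simp
  refine ⟨⟨⟨fun y => ∑ j, P j (y j), fun x j => Q j x, fun y => funext fun i => ?_, PQ⟩,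
    fun y y' => by simp [Finset.sum_add_distrib]⟩, fun g n y => ?_⟩
  · simp only [map_sum, QP]
    rw [← Finset.sum_apply, Finset.univ_sum_single]
  · change ∑ j, P j (o (g, n) • y j) = o (g, n ^ (k + 1)) • ∑ j, P j (y j)
    rw [Finset.smul_sum]
    refine Finset.sum_congr rfl fun j _ => uu_ext
      (T := (P j).comp (DistribSMul.toAddMonoidHom _ (o (g, n))))
      (T' := (DistribSMul.toAddMonoidHom _ (o (g, n ^ (k + 1)))).comp (P j)) (fun g' m => ?_) _
    simp only [AddMonoidHom.comp_apply, DistribSMul.toAddMonoidHom_apply, smul_uu, hP,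
      Option.elim_some, toAdd_pow, nsmul_eq_mul]
    congr 1
    ring

end Pool.Agent.Lib.MP_dab48e_gt
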